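import Pool.Agent.Helper82.BR.St3

set_option autoImplicit false

namespace Pool.Agent.Helper32.BR

open Pool.Agent.Helper82.BR
open scoped ComplexConjugate

theorem f1 (ρ : ℂ) (h : ρ ^ 6 - ρ ^ 3 + 1 = 0) (g : (1) * ρ ^ 0 + (-1) * ρ ^ 1 + (1) * ρ ^ 2 = 0) : False := by
  have : (1 : ℂ) = 0 := by
    linear_combination ((2/3) * ρ ^ 0 + (2/3) * ρ ^ 1 + (-1/3) * ρ ^ 3 + (-1/3) * ρ ^ 4) * g + ((1/3) * ρ ^ 0) * h
  exact one_ne_zero this

theorem f2 (ρ : ℂ) (h : ρ ^ 6 - ρ ^ 3 + 1 = 0) (g : (1) * ρ ^ 0 + (-1) * ρ ^ 2 + (1) * ρ ^ 4 = 0) : False := by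
  have : (1 : ℂ) = 0 := by
    linear_combination ((1) * ρ ^ 0 + (1) * ρ ^ 2 + (-1) * ρ ^ 3 + (-1) * ρ ^ 5) * g + ((1) * ρ ^ 3) * h
  exact one_ne_zero this

theorem f3 (ρ : ℂ) (h : ρ ^ 6 - ρ ^ 3 + 1 = 0) (g : (1) * ρ ^ 0 + (-1) * ρ ^ 1 + (-1) * ρ ^ 2 + (1) * ρ ^ 3 = 0) : False := by
  have : (1 : ℂ) = 0 := by
    linear_combination ((-4/3) * ρ ^ 0 + (-5/3) * ρ ^ 1 + (-4/3) * ρ ^ 2 + (2/3) * ρ ^ 3 + (4/3) * ρ ^ 4 + (5/3) * ρ ^ 5) * g + ((7/3) * ρ ^ 0 + (1/3) * ρ ^ 1 + (-5/3) * ρ ^ 2) * h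
  exact one_ne_zero this

theorem f4 (ρ : ℂ) (h : ρ ^ 6 - ρ ^ 3 + 1 = 0) (g : (1) * ρ ^ 0 + (-1) * ρ ^ 1 + (-1) * ρ ^ 4 + (1) * ρ ^ 5 = 0) : False := by
  have : (1 : ℂ) = 0 := by
    linear_combination ((-2/3) * ρ ^ 0 + (-1/3) * ρ ^ 1 + (-2/3) * ρ ^ 2 + (1/3) * ρ ^ 3 + (2/3) * ρ ^ 4 + (4/3) * ρ ^ 5) * g + ((5/3) * ρ ^ 0 + (-1/3) * ρ ^ 1 + (1/3) * ρ ^ 2 + (2/3) * ρ ^ 3 + (-4/3) * ρ ^ 4) * h
  exact one_ne_zero this

theorem f5 (ρ : ℂ) (h : ρ ^ 6 - ρ ^ 3 + 1 = 0) (g : (1) * ρ ^ 0 + (1) * ρ ^ 1 + (1) * ρ ^ 2 = 0) : False := by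
  have : (1 : ℂ) = 0 := by
    linear_combination ((1) * ρ ^ 3 + (-1) * ρ ^ 4) * g + ((1) * ρ ^ 0) * h
  exact one_ne_zero this

theorem f6 (ρ : ℂ) (h : ρ ^ 6 - ρ ^ 3 + 1 = 0) (g : (1) * ρ ^ 0 + (1) * ρ ^ 1 + (-1) * ρ ^ 2 + (1) * ρ ^ 3 + (1) * ρ ^ 4 = 0) : False := by
  have : (1 : ℂ) = 0 := by
    linear_combination ((5/17) * ρ ^ 0 + (-2/17) * ρ ^ 1 + (4/17) * ρ ^ 2 + (-4/17) * ρ ^ 3 + (2/17) * ρ ^ 4 + (-5/17) * ρ ^ 5) * g + ((12/17) * ρ ^ 0 + (-3/17) * ρ ^ 1 + (3/17) * ρ ^ 2 + (5/17) * ρ ^ 3) * h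
  exact one_ne_zero this

theorem f7 (ρ : ℂ) (h : ρ ^ 6 - ρ ^ 3 + 1 = 0) (g : (1) * ρ ^ 0 + (1) * ρ ^ 1 + (-1) * ρ ^ 3 + (1) * ρ ^ 5 + (1) * ρ ^ 6 = 0) : False := by
  have : (1 : ℂ) = 0 := by
    linear_combination ((1) * ρ ^ 0 + (-1) * ρ ^ 1 + (1) * ρ ^ 2 + (-1) * ρ ^ 3) * g + ((1) * ρ ^ 3) * h
  exact one_ne_zero this


theorem bis (z p : ℂ) (h : dist z 0 = dist z p) : z * conj p + conj z * p = p * conj p := by
  rw [Complex.dist_eq, Complex.dist_eq, sub_zero] at h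
  have h1 : z * conj z = ((‖z‖ : ℝ) : ℂ) ^ 2 := Complex.mul_conj' z
  have h2 : (z - p) * conj (z - p) = ((‖z - p‖ : ℝ) : ℂ) ^ 2 := Complex.mul_conj' (z - p)
  rw [← h] at h2
  rw [map_sub] at h2
  linear_combination h1 - h2

theorem hR3 : StR3 := by
  intro S w ρ b1 b2 b3 ⟨hw, hn, hR, n1, n2, n3, e1, e2, e3, hS⟩ hr
  obtain ⟨c, hc⟩ : ∃ c, c = conj ρ := ⟨_, rfl⟩
  have h1 : ρ * c = 1 := by
    rw [hc, Complex.mul_conj', hn]; norm_num
  have hρ0 : ρ ≠ 0 := by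
    rintro rfl
    simp at h1
  have hΦ : ρ ^ 6 - ρ ^ 3 + 1 = 0 := by
    have : (ρ ^ 3) ^ 2 = ρ ^ 3 - 1 := by rw [hr]; exact hw
    linear_combination this
  have c1 : conj b1 = c * b1 := by
    linear_combination (-c) * e1 - (conj b1) * h1
  have c2 : conj b2 = c ^ 3 * b2 := by
    have : (ρ * c) ^ 3 = 1 := by rw [h1]; norm_num
    linear_combination (-c ^ 3) * e2 - (conj b2) * this
  have c3 : conj b3 = c ^ 5 * b3 := by
    have : (ρ * c) ^ 5 = 1 := by rw [h1]; norm_num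
    linear_combination (-c ^ 5) * e3 - (conj b3) * this
  have hci : c = ρ⁻¹ := by
    field_simp
    linear_combination h1
  have cr : conj ρ = ρ⁻¹ := by rw [← hc, hci]
  -- points on the bisector of 0 and ρ ^ k
  have key : ∀ k : ℕ, ∀ z ∈ S.filter (fun s => dist s 0 = dist s (ρ ^ k)),
      z * (ρ⁻¹) ^ k + conj z * ρ ^ k = 1 := by
    intro k z hz
    have := bis z (ρ ^ k) (Finset.mem_filter.mp hz).2
    rw [map_pow, cr] at this
    have e : ρ ^ k * ρ⁻¹ ^ k = 1 := by rw [← mul_pow, mul_inv_cancel₀ hρ0, one_pow]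
    rw [e] at this
    exact this
  have m0 : (0 : ℂ) ∈ S := (hS 0).2 (by simp)
  have m1 : (1 : ℂ) ∈ S := (hS 1).2 (by simp)
  have mr : ρ ∈ S := (hS ρ).2 (by simp)
  have mr2 : ρ ^ 2 ∈ S := (hS (ρ ^ 2)).2 (by simp)
  have mb1 : b1 ∈ S := (hS b1).2 (by simp)
  -- p = ρ
  have q1 : ∀ z ∈ S.filter (fun s => dist s 0 = dist s (ρ ^ 1)),
      (z = b1 ∧ b1 * (1 + ρ) = ρ) ∨ (z = b2 ∧ b2 * (1 + ρ) = ρ ^ 2) ∨
        (z = b3 ∧ b3 * (1 + ρ ^ 3) = ρ ^ 4) := by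
    intro z hz
    have hk := key 1 z hz
    rcases (hS z).1 (Finset.mem_filter.mp hz).1 with rfl | rfl | rfl | rfl | rfl | rfl | rfl | rfl
    · simp at hk
    · exfalso
      rw [map_one] at hk
      field_simp at hk
      exact f1 _ hΦ (by linear_combination hk)
    · exfalso
      rw [cr] at hk
      field_simp at hk
      norm_num at hk
    · exfalso
      rw [map_pow, cr] at hk
      field_simp at hk
      exact f1 _ hΦ (by linear_combination hk)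
    · exfalso
      rw [map_pow, cr] at hk
      field_simp at hk
      exact f2 _ hΦ (by linear_combination hk)
    · left
      rw [c1, hci] at hk
      field_simp at hk
      exact ⟨rfl, by linear_combination hk⟩
    · right; left
      rw [c2, hci] at hk
      field_simp at hk
      exact ⟨rfl, by linear_combination hk⟩
    · right; right
      rw [c3, hci] at hk
      field_simp at hk
      exact ⟨rfl, by linear_combination hk⟩
  -- p = ρ ^ 2
  have q2 : ∀ z ∈ S.filter (fun s => dist s 0 = dist s (ρ ^ 2)),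
      (z = b1 ∧ b1 * (1 + ρ ^ 3) = ρ ^ 2) ∨ (z = b2 ∧ b2 * (1 + ρ) = ρ ^ 2) ∨
        (z = b3 ∧ b3 * (1 + ρ) = ρ ^ 3) := by
    intro z hz
    have hk := key 2 z hz
    rcases (hS z).1 (Finset.mem_filter.mp hz).1 with rfl | rfl | rfl | rfl | rfl | rfl | rfl | rfl
    · simp at hk
    · exfalso
      rw [map_one] at hk
      field_simp at hk
      exact f2 _ hΦ (by linear_combination hk)
    · exfalso
      rw [cr] at hk
      field_simp at hk
      exact f1 _ hΦ (by linear_combination hk)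
    · exfalso
      rw [map_pow, cr] at hk
      field_simp at hk
      norm_num at hk
    · exfalso
      rw [map_pow, cr] at hk
      field_simp at hk
      exact f1 _ hΦ (by linear_combination hk)
    · left
      rw [c1, hci] at hk
      field_simp at hk
      exact ⟨rfl, by linear_combination hk⟩
    · right; left
      rw [c2, hci] at hk
      field_simp at hk
      exact ⟨rfl, by linear_combination hk⟩
    · right; right
      rw [c3, hci] at hk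
      field_simp at hk
      exact ⟨rfl, by linear_combination hk⟩
  -- p = 1
  have q0 : ∀ z ∈ S.filter (fun s => dist s 0 = dist s (ρ ^ 0)),
      z = ρ ^ 3 ∨ (b1 * (1 + ρ) = ρ) ∨ (b2 * (1 + ρ ^ 3) = ρ ^ 3) ∨
        (b3 * (1 + ρ ^ 5) = ρ ^ 5) := by
    intro z hz
    have hk := key 0 z hz
    rcases (hS z).1 (Finset.mem_filter.mp hz).1 with rfl | rfl | rfl | rfl | rfl | rfl | rfl | rfl
    · simp at hk
    · exfalso
      rw [map_one] at hk
      norm_num at hk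
    · exfalso
      rw [cr] at hk
      field_simp at hk
      exact f1 _ hΦ (by linear_combination hk)
    · exfalso
      rw [map_pow, cr] at hk
      field_simp at hk
      exact f2 _ hΦ (by linear_combination hk)
    · left; rfl
    · right; left
      rw [c1, hci] at hk
      field_simp at hk
      linear_combination hk
    · right; right; left
      rw [c2, hci] at hk
      field_simp at hk
      linear_combination hk
    · right; right; right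
      rw [c3, hci] at hk
      field_simp at hk
      linear_combination hk
  have two : ∀ p ∈ S, p ≠ 0 → ∃ u ∈ S.filter (fun s => dist s 0 = dist s p),
      ∃ v ∈ S.filter (fun s => dist s 0 = dist s p), u ≠ v := by
    intro p hp h0
    exact Finset.one_lt_card.mp (hR 0 m0 p hp (Ne.symm h0))
  have x11 : ρ ^ 1 ∈ S := by rw [pow_one]; exact mr
  have x00 : ρ ^ 0 ∈ S := by rw [pow_zero]; exact m1
  -- incompatibilities
  have i1 : b1 * (1 + ρ) = ρ → b1 * (1 + ρ ^ 3) = ρ ^ 2 → False := fun a b =>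
    f3 ρ hΦ (mul_left_cancel₀ hρ0 (by linear_combination (1 + ρ) * b - (1 + ρ ^ 3) * a))
  have i2 : b2 * (1 + ρ) = ρ ^ 2 → b2 * (1 + ρ ^ 3) = ρ ^ 3 → False := fun a b =>
    f3 ρ hΦ (mul_left_cancel₀ (pow_ne_zero 2 hρ0)
      (by linear_combination (1 + ρ) * b - (1 + ρ ^ 3) * a))
  have i3 : b3 * (1 + ρ) = ρ ^ 3 → b3 * (1 + ρ ^ 3) = ρ ^ 4 → False := fun a b =>
    f3 ρ hΦ (mul_left_cancel₀ (pow_ne_zero 3 hρ0)
      (by linear_combination (1 + ρ) * b - (1 + ρ ^ 3) * a))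
  have i4 : b3 * (1 + ρ ^ 3) = ρ ^ 4 → b3 * (1 + ρ ^ 5) = ρ ^ 5 → False := fun a b =>
    f4 ρ hΦ (mul_left_cancel₀ (pow_ne_zero 4 hρ0)
      (by linear_combination (1 + ρ ^ 3) * b - (1 + ρ ^ 5) * a))
  obtain ⟨u, hu, v, hv, huv⟩ := two (ρ ^ 1) x11 (pow_ne_zero 1 hρ0)
  obtain ⟨u', hu', v', hv', huv'⟩ := two (ρ ^ 2) mr2 (pow_ne_zero 2 hρ0)
  obtain ⟨u0, hu0, v0, hv0, huv0⟩ := two (ρ ^ 0) x00 (pow_ne_zero 0 hρ0)
  have CI : b1 * (1 + ρ) = ρ → b2 * (1 + ρ) = ρ ^ 2 → b3 * (1 + ρ) = ρ ^ 3 → False := by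
    intro a1 a2 a3
    obtain ⟨z, hz, -⟩ := two b1 mb1 n1
    have hb := bis z b1 (Finset.mem_filter.mp hz).2
    rw [c1, hci] at hb
    have hz2 : z + ρ * conj z = b1 := by
      field_simp at hb
      linear_combination hb
    have hz3 : (z + ρ * conj z) * (1 + ρ) = ρ := by rw [hz2]; exact a1
    rcases (hS z).1 (Finset.mem_filter.mp hz).1 with rfl | rfl | rfl | rfl | rfl | rfl | rfl | rfl
    · simp at hz3
      exact hρ0 hz3.symm
    · rw [map_one] at hz3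
      exact f5 _ hΦ (by linear_combination hz3)
    · rw [cr] at hz3
      field_simp at hz3
      exact f5 _ hΦ (by linear_combination hz3)
    · rw [map_pow, cr] at hz3
      field_simp at hz3
      exact f6 _ hΦ (by linear_combination hz3)
    · rw [map_pow, cr] at hz3
      field_simp at hz3
      exact f7 _ hΦ (by linear_combination hz3)
    · rw [c1, hci, ← mul_assoc, mul_inv_cancel₀ hρ0, one_mul] at hz2
      exact n1 (by linear_combination hz2)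
    · rw [c2, hci] at hz3
      have e : ρ * ρ⁻¹ ^ 3 = ρ⁻¹ ^ 2 := by field_simp
      have h4 : (z * (1 + ρ)) * (1 + ρ⁻¹ ^ 2) = ρ := by
        linear_combination hz3 - (z * (1 + ρ)) * e
      rw [a2] at h4
      field_simp at h4
      exact f1 _ hΦ (by linear_combination h4)
    · rw [c3, hci] at hz3
      have e : ρ * ρ⁻¹ ^ 5 = ρ⁻¹ ^ 4 := by field_simp
      have h4 : (z * (1 + ρ)) * (1 + ρ⁻¹ ^ 4) = ρ := by
        linear_combination hz3 - (z * (1 + ρ)) * e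
      rw [a3] at h4
      field_simp at h4
      exact f2 _ hΦ (by linear_combination h4)
  have CII : b1 * (1 + ρ ^ 3) = ρ ^ 2 → b2 * (1 + ρ) = ρ ^ 2 → b3 * (1 + ρ ^ 3) = ρ ^ 4 →
      False := by
    intro a1 a2 a3
    rcases q0 u0 hu0 with x | x | x | x
    · rcases q0 v0 hv0 with y | y | y | y
      · exact huv0 (x.trans y.symm)
      · exact i1 y a1
      · exact i2 a2 y
      · exact i4 a3 y
    · exact i1 x a1
    · exact i2 a2 x
    · exact i4 a3 x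
  rcases q1 u hu with ⟨x, x'⟩ | ⟨x, x'⟩ | ⟨x, x'⟩ <;> rcases q1 v hv with ⟨y, y'⟩ | ⟨y, y'⟩ | ⟨y, y'⟩ <;>
  rcases q2 u' hu' with ⟨s, s'⟩ | ⟨s, s'⟩ | ⟨s, s'⟩ <;> rcases q2 v' hv' with ⟨t, t'⟩ | ⟨t, t'⟩ | ⟨t, t'⟩ <;>
  first
    | exact huv (x.trans y.symm)
    | exact huv' (s.trans t.symm)
    | exact i1 x' s'
    | exact i1 x' t'
    | exact i1 y' s'
    | exact i1 y' t'
    | exact i3 s' x'
    | exact i3 s' y'
    | exact i3 t' x'
    | exact i3 t' y'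
    | exact CI x' y' s'
    | exact CI x' y' t'
    | exact CI y' x' s'
    | exact CI y' x' t'
    | exact CII s' t' x'
    | exact CII s' t' y'
    | exact CII t' s' x'
    | exact CII t' s' y'

end Pool.Agent.Helper32.BR
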